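import Pool.Agent.Helper7.KT.St

/-!
# Project KT, module PNA: pigeonhole
-/

set_option autoImplicit false

namespace Pool.Agent.Helper44.KT

open Finset SimpleGraph Filter Topology
open EX Pool.Agent.Helper7.KT

open scoped Classical

private theorem pna_remove {n : ℕ} (C : Finset (Fin n)) (S : Finset (Fin n × Fin n)) :
    S.card ≤ (S.filter fun q => q.1 ∉ C ∧ q.2 ∉ C).card + 2 * (C.card * n) := by
  have h1 : S ⊆ (S.filter fun q => q.1 ∉ C ∧ q.2 ∉ C) ∪
      (C ×ˢ (univ : Finset (Fin n)) ∪ (univ : Finset (Fin n)) ×ˢ C) := by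
    intro q hq
    simp only [mem_union, mem_filter, mem_product, mem_univ, and_true, true_and]
    by_cases h : q.1 ∈ C
    · exact Or.inr (Or.inl h)
    · by_cases h' : q.2 ∈ C
      · exact Or.inr (Or.inr h')
      · exact Or.inl ⟨hq, h, h'⟩
  have h2 := card_le_card h1
  have h3 := card_union_le (S.filter fun q => q.1 ∉ C ∧ q.2 ∉ C)
      (C ×ˢ (univ : Finset (Fin n)) ∪ (univ : Finset (Fin n)) ×ˢ C)
  have h4 := card_union_le (C ×ˢ (univ : Finset (Fin n))) ((univ : Finset (Fin n)) ×ˢ C)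
  rw [card_product, card_product, card_univ, Fintype.card_fin] at h4
  have h5 : n * C.card = C.card * n := Nat.mul_comm _ _
  omega

theorem hPNA (hCOM : StCOM) : StPNA := by
  intro ι _ _ M ε hε
  set η : ℝ := ε / 2 ^ (M + 1) with hη
  have hη0 : 0 < η := by positivity
  refine ⟨η ^ (Fintype.card ι) / 2, by positivity, ?_⟩
  have hev : ∀ᶠ n : ℕ in atTop, 4 * (M : ℝ) / ε ≤ (n : ℝ) :=
    tendsto_natCast_atTop_atTop.eventually_ge_atTop _
  filter_upwards [hCOM ι η hη0, hev, eventually_ge_atTop 1] with n hn hn2 hn1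
  intro C hC W S hS
  have hn0 : (0 : ℝ) < n := by exact_mod_cast hn1
  set S' := S.filter fun q => q.1 ∉ C ∧ q.2 ∉ C with hS'
  have hrem : (S.card : ℝ) ≤ (S'.card : ℝ) + 2 * (C.card * n) := by
    exact_mod_cast pna_remove C S
  have hC' : (C.card : ℝ) ≤ M := by exact_mod_cast hC
  have hM : 4 * (M : ℝ) ≤ ε * n := by
    rw [div_le_iff₀ hε] at hn2
    linarith [mul_comm (n : ℝ) ε]
  have hS'c : ε / 2 * (n : ℝ) ^ 2 ≤ S'.card := by
    have h1 : (C.card : ℝ) * n ≤ M * n := mul_le_mul_of_nonneg_right hC' hn0.le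
    have h2 : 4 * (M : ℝ) * n ≤ ε * n * n := mul_le_mul_of_nonneg_right hM hn0.le
    nlinarith
  -- pigeonhole
  have hfib : S'.card = ∑ A ∈ C.powerset, (S'.filter fun q => W q.1 q.2 ∩ C = A).card := by
    refine card_eq_sum_card_fiberwise ?_
    intro q _
    exact mem_coe.2 (mem_powerset.2 inter_subset_right)
  have hsum : ∑ A ∈ C.powerset, η * (n : ℝ) ^ 2 ≤
      ∑ A ∈ C.powerset, ((S'.filter fun q => W q.1 q.2 ∩ C = A).card : ℝ) := by
    have h1 : (∑ A ∈ C.powerset, ((S'.filter fun q => W q.1 q.2 ∩ C = A).card : ℝ)) =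
        S'.card := by
      rw [hfib]
      push_cast
      rfl
    rw [h1, sum_const, card_powerset, nsmul_eq_mul]
    refine le_trans ?_ hS'c
    have h2 : ((2 ^ C.card : ℕ) : ℝ) ≤ 2 ^ M := by
      push_cast
      exact pow_le_pow_right₀ (by norm_num) hC
    have h3 : (2 : ℝ) ^ M * (η * (n : ℝ) ^ 2) = ε / 2 * (n : ℝ) ^ 2 := by
      rw [hη, pow_succ]
      field_simp
    rw [← h3]
    exact mul_le_mul_of_nonneg_right h2 (by positivity)
  obtain ⟨A, hA, hAc⟩ := exists_le_of_sum_le ⟨∅, empty_mem_powerset C⟩ hsum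
  obtain ⟨u, hu, huc⟩ := hn _ hAc
  have hne : (univ.filter fun v => ∀ i, (u i, v) ∈
      (S'.filter fun q => W q.1 q.2 ∩ C = A)).Nonempty := by
    rw [← card_pos]
    have h1 : (0 : ℝ) < η ^ (Fintype.card ι) / 2 * n := by positivity
    exact_mod_cast lt_of_lt_of_le h1 huc
  obtain ⟨v₀, hv₀⟩ := hne
  simp only [mem_filter, mem_univ, true_and, hS'] at hv₀
  refine ⟨A, u, hu, fun i => (hv₀ i).1.2.1, huc.trans ?_⟩
  refine Nat.cast_le.2 (card_le_card ?_)
  intro v hv
  simp only [mem_filter, mem_univ, true_and, hS'] at hv ⊢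
  obtain ⟨i₀⟩ := (inferInstance : Nonempty ι)
  exact ⟨(hv i₀).1.2.2, fun i => ⟨(hv i).1.1, (hv i).2⟩⟩

end Pool.Agent.Helper44.KT
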